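import Pool.Agent.helper78.HFN.Spec

/-!
# Project HFN: row ELI (elimination of `y`)

By Gauss's lemma the two polynomials are coprime over the field of fractions of `ℂ[x]`; a Bezout identity there,
multiplied by a common denominator, gives the statement.
-/

set_option autoImplicit false

open Polynomial Module

namespace Pool.Agent.HFN

noncomputable section

theorem ELI_clear (K : Type) [Field K] [Algebra ℂ[X] K] [IsFractionRing ℂ[X] K] (a : K[X]) :
    ∃ (b : ℂ[X]) (a' : AA), b ≠ 0 ∧ a'.map (algebraMap ℂ[X] K) = C (algebraMap ℂ[X] K b) * a := by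
  obtain ⟨b, hb, h⟩ := IsLocalization.integerNormalization_spec (nonZeroDivisors ℂ[X]) a
  refine ⟨b, IsLocalization.integerNormalization (nonZeroDivisors ℂ[X]) a, nonZeroDivisors.ne_zero hb, ?_⟩
  rw [h, Algebra.smul_def, Polynomial.algebraMap_apply]

theorem ELI_cop (K : Type) [Field K] [Algebra ℂ[X] K] [IsFractionRing ℂ[X] K] (G1 G2 : AA) (h : IsRelPrime G1 G2) :
    IsCoprime (G1.map (algebraMap ℂ[X] K)) (G2.map (algebraMap ℂ[X] K)) := by
  have hinj : Function.Injective (algebraMap ℂ[X] K) := IsFractionRing.injective _ _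
  have hmap : Function.Injective (Polynomial.map (algebraMap ℂ[X] K)) := Polynomial.map_injective _ hinj
  rw [← isRelPrime_iff_isCoprime]
  intro g hg1 hg2
  -- `g ≠ 0`
  have hg0 : g ≠ 0 := by
    rintro rfl
    rw [zero_dvd_iff] at hg1 hg2
    have e1 : G1 = 0 := hmap (by rw [hg1, Polynomial.map_zero])
    have e2 : G2 = 0 := hmap (by rw [hg2, Polynomial.map_zero])
    rw [e1, e2] at h
    have h0 : IsUnit (0 : AA) := h dvd_rfl dvd_rfl
    exact not_isUnit_zero h0
  obtain ⟨b, g', hb, hg'⟩ := ELI_clear K g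
  have hbK : IsUnit (C (algebraMap ℂ[X] K b)) := by
    rw [Polynomial.isUnit_C, isUnit_iff_ne_zero]
    intro h0
    exact hb (hinj (by rw [h0, map_zero]))
  have hg'0 : g' ≠ 0 := by
    rintro rfl
    rw [Polynomial.map_zero] at hg'
    exact (mul_ne_zero hbK.ne_zero hg0) hg'.symm
  let _ : NormalizedGCDMonoid ℂ[X] := Classical.arbitrary _
  have hprim : g'.primPart.IsPrimitive := g'.isPrimitive_primPart
  have hcont : IsUnit (C (algebraMap ℂ[X] K g'.content)) := by
    rw [Polynomial.isUnit_C, isUnit_iff_ne_zero]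
    intro h0
    exact hg'0 (content_eq_zero_iff.1 (hinj (by rw [h0, map_zero])))
  have hdvd : (g'.primPart).map (algebraMap ℂ[X] K) ∣ g := by
    have e1 : C (algebraMap ℂ[X] K g'.content) * (g'.primPart).map (algebraMap ℂ[X] K) = C (algebraMap ℂ[X] K b) * g := by
      rw [← hg']
      conv_rhs => rw [g'.eq_C_content_mul_primPart]
      rw [Polynomial.map_mul, Polynomial.map_C]
    rw [← hbK.dvd_mul_left, ← e1]
    exact dvd_mul_left _ _
  have hdvd' : g ∣ (g'.primPart).map (algebraMap ℂ[X] K) := by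
    have e1 : C (algebraMap ℂ[X] K g'.content) * (g'.primPart).map (algebraMap ℂ[X] K) = C (algebraMap ℂ[X] K b) * g := by
      rw [← hg']
      conv_rhs => rw [g'.eq_C_content_mul_primPart]
      rw [Polynomial.map_mul, Polynomial.map_C]
    rw [← hcont.dvd_mul_left, e1]
    exact dvd_mul_left _ _
  have h1 : g'.primPart ∣ G1 := hprim.dvd_of_fraction_map_dvd_fraction_map (K := K) (hdvd.trans hg1)
  have h2 : g'.primPart ∣ G2 := hprim.dvd_of_fraction_map_dvd_fraction_map (K := K) (hdvd.trans hg2)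
  have hu : IsUnit g'.primPart := h h1 h2
  have hu' : IsUnit ((g'.primPart).map (algebraMap ℂ[X] K)) := hu.map (Polynomial.mapRingHom (algebraMap ℂ[X] K))
  exact isUnit_of_dvd_unit hdvd' hu'

theorem ELI_main (K : Type) [Field K] [Algebra ℂ[X] K] [IsFractionRing ℂ[X] K] (G1 G2 : AA) (h : IsRelPrime G1 G2) :
    ∃ (u v : AA) (d : ℂ[X]), d ≠ 0 ∧ u * G1 + v * G2 = C d := by
  have hinj : Function.Injective (algebraMap ℂ[X] K) := IsFractionRing.injective _ _
  have hmap : Function.Injective (Polynomial.map (algebraMap ℂ[X] K)) := Polynomial.map_injective _ hinj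
  obtain ⟨a1, a2, ha⟩ := ELI_cop K G1 G2 h
  obtain ⟨b1, u, hb1, hu⟩ := ELI_clear K a1
  obtain ⟨b2, v, hb2, hv⟩ := ELI_clear K a2
  refine ⟨C b2 * u, C b1 * v, b1 * b2, mul_ne_zero hb1 hb2, hmap ?_⟩
  rw [Polynomial.map_add, Polynomial.map_mul, Polynomial.map_mul, Polynomial.map_mul, Polynomial.map_mul, hu, hv,
    Polynomial.map_C, Polynomial.map_C, Polynomial.map_C]
  calc C (algebraMap ℂ[X] K b2) * (C (algebraMap ℂ[X] K b1) * a1) * G1.map (algebraMap ℂ[X] K) +
        C (algebraMap ℂ[X] K b1) * (C (algebraMap ℂ[X] K b2) * a2) * G2.map (algebraMap ℂ[X] K)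
      = C (algebraMap ℂ[X] K b1) * C (algebraMap ℂ[X] K b2) *
        (a1 * G1.map (algebraMap ℂ[X] K) + a2 * G2.map (algebraMap ℂ[X] K)) := by ring
    _ = C (algebraMap ℂ[X] K (b1 * b2)) := by rw [ha, mul_one, ← C_mul, ← map_mul]

theorem ELI : ELI_stmt := fun G1 G2 h => ELI_main (FractionRing ℂ[X]) G1 G2 h

end

end Pool.Agent.HFN
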